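import Pool.Agent.Run7.h794.RF.Tr

set_option autoImplicit false

/-!
Families of residues with small Fourier coefficients: correlations with values of the von Mangoldt function.
-/

namespace Pool.Agent.Run7.h794.RF

open Finset Filter
open Pool.Agent.N384.MQ
open Pool.Agent.Y885 (Fine)
open Pool.Agent.H373R2.T7 (exI)
open Pool.Agent.N193.PS (log_pos4)

/-- the von Mangoldt function at the values of the linear forms -/
lemma vm_log (B A : ℕ) : ∃ N₀ : ℕ, ∀ N : ℕ, N₀ ≤ N → ∀ e d n : ℕ, e ≤ N ^ B → d ≤ N ^ B → (n : ℝ) ≤ N * Real.log N ^ A →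
    |ArithmeticFunction.vonMangoldt (e * n + d)| ≤ Real.log N ^ 2 := by
  obtain ⟨N₁, h1⟩ := eventually_atTop.mp (ev_log_pow A 1)
  obtain ⟨N₂, h2⟩ := large_log (B + 3 : ℕ)
  refine ⟨N₁ + N₂ + 4, fun N hN e d n he hd hn => ?_⟩
  have hl1 := log_pos4 N (by omega)
  have hl0 : 0 < Real.log N := by linarith
  rw [abs_of_nonneg ArithmeticFunction.vonMangoldt_nonneg]
  refine ArithmeticFunction.vonMangoldt_le_log.trans ?_
  have g1 := h1 N (by omega)
  rw [one_mul] at g1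
  have g2 := h2 N (by omega)
  have hn2 : n ≤ N * N := by
    have : (n : ℝ) ≤ ((N * N : ℕ) : ℝ) := by
      push_cast
      exact hn.trans (mul_le_mul_of_nonneg_left g1 (Nat.cast_nonneg _))
    exact_mod_cast this
  have hN2 : 2 ≤ N := by omega
  have e1 : e * n + d ≤ N ^ (B + 3) := by
    calc e * n + d ≤ N ^ B * (N * N) + N ^ B := add_le_add (Nat.mul_le_mul he hn2) hd
      _ ≤ N ^ B * (N * N) + N ^ B * (N * N) := by
          apply add_le_add le_rfl
          exact Nat.le_mul_of_pos_right _ (by positivity)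
      _ = 2 * (N ^ B * (N * N)) := by ring
      _ ≤ N * (N ^ B * (N * N)) := Nat.mul_le_mul_right _ hN2
      _ = N ^ (B + 3) := by ring
  rcases Nat.eq_zero_or_pos (e * n + d) with h0 | h0
  · rw [h0]
    simp only [Nat.cast_zero, Real.log_zero]
    positivity
  · have e2 : Real.log ((e * n + d : ℕ) : ℝ) ≤ Real.log ((N ^ (B + 3) : ℕ) : ℝ) :=
      Real.log_le_log (by exact_mod_cast h0) (by exact_mod_cast e1)
    refine e2.trans ?_
    rw [Nat.cast_pow, Real.log_pow, sq]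
    exact mul_le_mul_of_nonneg_right g2 hl0.le

open Classical in
/-- joint correlations for all the multiples of the integers near the members of several families -/
theorem mq_multi (s r : ℕ) (hs : 1 ≤ s) (κ : Fin s → ℤ) (hκ : ∀ i, κ i ≠ 0) (θ : Fin s → ℕ → ℝ)
    (hθ : ∀ i, Fine (θ i)) (B A J W U a : ℕ) :
    ∃ V N₀ : ℕ, ∀ N : ℕ, N₀ ≤ N → ∀ (M : Fin s → ℕ) [∀ i, NeZero (M i)], (∀ i, M i ≤ N) →
      (∀ i, (N : ℝ) ≤ M i * Real.log N ^ a) → ∀ (ι : Fin s → Type) (S : ∀ i, Finset (ι i)) (y : ∀ i, ι i → ZMod (M i)),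
      (∀ i, Flat (M i) (1 / Real.log (M i) ^ V) (S i) (y i)) → ∀ c : Fin s → ℤ, (∀ i, |c i| ≤ N) →
      ∀ L : ℕ, (L : ℝ) ≤ Real.log N ^ A → ∀ (α : Fin L → ℕ) (e d : Fin L → Fin r → ℕ) (g : Fin L → ℕ → ℂ), (∀ l, 1 ≤ α l) →
      (∀ l j, e l j ≤ N ^ B ∧ d l j ≤ N ^ B) → (∀ l n, ‖g l n‖ ≤ 1) →
      (((Fintype.piFinset S).filter fun m => ¬ ∀ q : Fin s → ℤ,
        (∀ i, |(q i : ℝ) - (c i + κ i * ((y i (m i)).val : ℕ))| ≤ Real.log N ^ W) →
        ∀ h : Fin s → ℕ, (∀ i, 1 ≤ h i ∧ (h i : ℝ) ≤ Real.log N ^ J) → ∀ l, ∀ I : Finset (Fin s), I.Nonempty →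
        ∀ X : ℕ, (α l * X : ℝ) ≤ N * Real.log N ^ A →
        ‖∑ n ∈ Icc 1 X, g l n * (∏ j, (ArithmeticFunction.vonMangoldt (e l j * n + d l j) : ℂ)) *
          ∏ i ∈ I, exI (fun n => ((θ i n : ℝ) : ℂ)) (α l * n + h i * q i)‖ ≤ N / Real.log N ^ U).card : ℝ) ≤
        (∏ i, ((S i).card : ℝ)) / Real.log N ^ U := by
  obtain ⟨V, N₁, h0⟩ := mq_corrT s hs κ hκ θ hθ (A + 2 * r) J W U a
  obtain ⟨N₂, h1⟩ := vm_log B A
  refine ⟨V, N₁ + N₂ + 4, fun N hN M _ hM1 hM2 ι S y hf c hc L hL α e d g hα hed hg => ?_⟩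
  have hl1 := log_pos4 N (by omega)
  have hl0 : 0 < Real.log N := by linarith
  obtain ⟨g', hg'⟩ : ∃ g' : Fin L → ℕ → ℂ, g' = fun l (n : ℕ) => if ((α l : ℕ) * (n : ℕ) : ℝ) ≤ N * Real.log N ^ A then
    g l n * ∏ j, (ArithmeticFunction.vonMangoldt (e l j * n + d l j) : ℂ) else 0 := ⟨_, rfl⟩
  have hgb : ∀ l n, ‖g' l n‖ ≤ Real.log N ^ (A + 2 * r) := by
    intro l n
    rw [hg']
    simp only
    split_ifs with hn
    · have hnB : (n : ℝ) ≤ N * Real.log N ^ A := by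
        refine le_trans ?_ hn
        have : (1 : ℝ) ≤ α l := by exact_mod_cast hα l
        nlinarith [Nat.cast_nonneg (α := ℝ) n]
      rw [norm_mul, norm_prod]
      have e1 : ∏ j, ‖(ArithmeticFunction.vonMangoldt (e l j * n + d l j) : ℂ)‖ ≤ ∏ _j : Fin r, Real.log N ^ 2 := by
        apply prod_le_prod (fun _ _ => norm_nonneg _)
        intro j _
        rw [Complex.norm_real, Real.norm_eq_abs]
        exact h1 N (by omega) _ _ n (hed l j).1 (hed l j).2 hnB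
      rw [prod_const, card_univ, Fintype.card_fin, ← pow_mul] at e1
      calc _ ≤ 1 * Real.log N ^ (2 * r) := mul_le_mul (hg _ _) e1 (prod_nonneg fun _ _ => norm_nonneg _) zero_le_one
        _ = Real.log N ^ (2 * r) := one_mul _
        _ ≤ _ := pow_le_pow_right₀ hl1 (by omega)
    · rw [norm_zero]; positivity
  have key := h0 N (by omega) M hM1 hM2 ι S y hf c hc L (hL.trans (pow_le_pow_right₀ hl1 (by omega))) α g' hα hgb
  refine le_trans (Nat.cast_le.2 (card_le_card fun m hm => ?_)) key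
  rw [mem_filter] at hm ⊢
  refine ⟨hm.1, fun hcon => hm.2 ?_⟩
  intro q hq h hh l I hI X hX
  have h2 := hcon q hq h hh l I hI X (hX.trans (mul_le_mul_of_nonneg_left (pow_le_pow_right₀ hl1 (by omega)) (Nat.cast_nonneg _)))
  refine le_trans (le_of_eq ?_) h2
  congr 1
  apply sum_congr rfl
  intro n hn
  rw [mem_Icc] at hn
  have h3 : (α l * n : ℝ) ≤ N * Real.log N ^ A := by
    refine le_trans ?_ hX
    apply mul_le_mul_of_nonneg_left _ (Nat.cast_nonneg _)
    exact_mod_cast hn.2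
  rw [hg']
  simp only
  rw [if_pos h3]
  push_cast
  rfl

end Pool.Agent.Run7.h794.RF
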