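import Pool.Agent.N384.MQ.Mod
import Pool.Agent.N384.MQ.MultV
import Pool.Agent.N625.DY.J
import Pool.Agent.N625.DY.O

set_option autoImplicit false

/-!
Families of residues with small Fourier coefficients: transfer in terms of `N`, levels of distribution, averages,
correlations with values of the von Mangoldt function.
-/

namespace Pool.Agent.Run7.h794.RF

open Finset Filter
open Pool.Agent.N384.MQ
open Pool.Agent.N625.DY (ClsV Cls)
open Pool.Agent.N193.PS (dg lt_dg dg_le log_le_dg dg_le_log dg_large log_pos4)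

open Classical in
/-- **Transfer**, in terms of `N`, for properties which depend on a further parameter. -/
theorem transferN {Θ : Type} (a : ℕ) (κ : ℤ) (hκ : κ ≠ 0) (U : ℕ) (R : ℕ → Θ → Prop) (G : ℕ → Θ → ℤ → Prop)
    (h : ∀ C : ℕ → (ℕ → ℝ) → Prop, ClsV 2 κ C → ∃ k₀ : ℕ, ∀ k : ℕ, k₀ ≤ k → ∀ θ, R k θ → ∀ p, C k p →
      ∀ c : ℤ, |c| ≤ (2 : ℤ) ^ k →
      ∑ v ∈ range (2 ^ k), (if G k θ (c + κ * (v : ℕ)) then 0 else p v) ≤ 1 / (k : ℝ) ^ (U + 1)) :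
    ∃ V N₀ : ℕ, ∀ N : ℕ, N₀ ≤ N → ∀ θ, R (dg N) θ → ∀ q : ℕ, ∀ [NeZero q], q ≤ N → (N : ℝ) ≤ q * Real.log N ^ a →
      ∀ (ι : Type) (s : Finset ι) (y : ι → ZMod q), Flat q (1 / Real.log q ^ V) s y → ∀ c : ℤ, |c| ≤ N →
      ((s.filter fun i => ¬ G (dg N) θ (c + κ * ((y i).val : ℕ))).card : ℝ) ≤ s.card / Real.log N ^ U := by
  obtain ⟨V, k₀, h0⟩ := fin_form (a + 1) κ hκ (fun k p => ∃ θ, R k θ ∧ ∃ c : ℤ, |c| ≤ (2 : ℤ) ^ k ∧
    1 / (k : ℝ) ^ (U + 1) < ∑ v ∈ range (2 ^ k), (if G k θ (c + κ * (v : ℕ)) then 0 else p v)) (fun C hC => by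
      obtain ⟨k₀, h1⟩ := h C hC
      refine ⟨k₀, fun k hk p hp => ?_⟩
      rintro ⟨θ, hθ, c, hc, hlt⟩
      exact absurd (h1 k hk θ hθ p hp c hc) (not_le.2 hlt))
  obtain ⟨N₀, hN₀⟩ := fam_N a U V k₀
  refine ⟨V + 1, N₀, fun N hN θ hθ q _ hq1 hq2 ι s y hf c hc => ?_⟩
  obtain ⟨-, hk, -, h2⟩ := hN₀ N hN q hq1 hq2
  have hc2 : |c| ≤ (2 : ℤ) ^ dg N := by
    refine hc.trans ?_
    exact_mod_cast (lt_dg N).le
  refine le_trans (Nat.cast_le.2 (card_le_card fun i hi => ?_))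
    (h2 ι s y hf (fun v => ¬ G (dg N) θ (c + κ * (v : ℕ))) (fun p hp => ?_))
  · simp only [mem_filter] at hi ⊢
    exact hi
  have h3 := h0 (dg N) hk p hp
  push Not at h3
  refine le_trans (le_of_eq ?_) (h3 θ hθ c hc2)
  refine sum_congr rfl fun v _ => ?_
  by_cases hG : G (dg N) θ (c + κ * (v : ℕ))
  · rw [if_neg (not_not.2 hG), if_pos hG]
  · rw [if_pos hG, if_neg hG]

/-- scale -/
lemma scale_N (U : ℕ) : ∃ N₀ : ℕ, ∀ N : ℕ, N₀ ≤ N →
    ((2 ^ dg N : ℕ) : ℝ) / (dg N : ℝ) ^ (U + 1) ≤ N / Real.log N ^ U := by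
  obtain ⟨N₁, h1⟩ := large_log 2
  refine ⟨N₁ + 4, fun N hN => ?_⟩
  have hl1 := log_pos4 N (by omega)
  have hl0 : 0 < Real.log N := by linarith
  have hlk := log_le_dg N (by omega)
  have hk2 : (2 : ℝ) ^ dg N ≤ 2 * N := by exact_mod_cast dg_le N (by omega)
  have hlg := h1 N (by omega)
  push_cast
  calc (2 : ℝ) ^ dg N / (dg N : ℝ) ^ (U + 1) ≤ (2 * N) / Real.log N ^ (U + 1) :=
        div_le_div₀ (by positivity) hk2 (by positivity) (pow_le_pow_left₀ hl0.le hlk _)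
    _ ≤ N / Real.log N ^ U := by
        rw [div_le_div_iff₀ (by positivity) (by positivity), pow_succ]
        have : 2 * (N * Real.log N ^ U) ≤ Real.log N * (N * Real.log N ^ U) :=
          mul_le_mul_of_nonneg_right hlg (by positivity)
        linarith


/-- `ψ(x; q, r) - x / φ(q)` -/
noncomputable def Err (x q r : ℕ) : ℝ :=
  ∑ n ∈ (Icc 1 x).filter (fun n => n ≡ r [MOD q]), ArithmeticFunction.vonMangoldt n - (x : ℝ) / Nat.totient q

lemma floor_le_floor (N k : ℕ) (hN : 1 ≤ N) (hk : N ≤ 2 ^ k) (ε : ℝ) :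
    ⌊(N : ℝ) ^ (1 - ε)⌋₊ ≤ ⌊((2 ^ k : ℕ) : ℝ) ^ (1 - ε)⌋₊ ∨ ⌊(N : ℝ) ^ (1 - ε)⌋₊ = 0 ∨ N = 1 := by
  by_cases h1 : ε ≤ 1
  · left
    apply Nat.floor_le_floor
    exact Real.rpow_le_rpow (Nat.cast_nonneg _) (by exact_mod_cast hk) (by linarith)
  · right
    push Not at h1
    rcases Nat.lt_or_ge 1 N with h2 | h2
    · left
      rw [Nat.floor_eq_zero]
      exact Real.rpow_lt_one_of_one_lt_of_neg (by exact_mod_cast h2) (by linarith)
    · right; omega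

open Classical in
/-- level of distribution `1 - ε` for all the integers near almost all the members of a family -/
theorem mq_level (κ : ℤ) (hκ : κ ≠ 0) (a T W U : ℕ) (ε : ℝ) (hε : 0 < ε) :
    ∃ V N₀ : ℕ, ∀ N : ℕ, N₀ ≤ N → ∀ M : ℕ, ∀ [NeZero M], M ≤ N → (N : ℝ) ≤ M * Real.log N ^ a →
      ∀ (ι : Type) (s : Finset ι) (y : ι → ZMod M), Flat M (1 / Real.log M ^ V) s y → ∀ c : ℤ, |c| ≤ N →
      ∀ L : ℕ, (L : ℝ) ≤ Real.log N ^ T → ∀ lam : Fin L → ℕ → ℝ, (∀ l q, |lam l q| ≤ Real.log N ^ T) →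
      ((s.filter fun i => ¬ ∀ r : ℕ, 1 ≤ r → |(r : ℝ) - (c + κ * ((y i).val : ℕ))| ≤ Real.log N ^ W →
        ∀ l, ∀ x ≤ N, |∑ q ∈ (Icc 1 ⌊(N : ℝ) ^ (1 - ε)⌋₊).filter (fun q => r.Coprime q), lam l q * Err x q r| ≤
          N / Real.log N ^ U).card : ℝ) ≤ s.card / Real.log N ^ U := by
  obtain ⟨V, N₁, h0⟩ := transferN (Θ := Σ L : ℕ, Fin L → ℕ → ℝ) a κ hκ U
    (fun k t => (t.1 : ℝ) ≤ (k : ℝ) ^ T ∧ ∀ l q, |t.2 l q| ≤ (k : ℝ) ^ T)
    (fun k t z => ∀ r : ℤ, |r - z| ≤ (k : ℤ) ^ W → 0 < r → ∀ l, Pool.Agent.N625.DY.Level 2 1 (U + 1) k ε (t.2 l) r.toNat)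
    (fun C hC => by
      obtain ⟨k₀, h1⟩ := Pool.Agent.N625.DY.cls_level_near hC.toCls 1 T W (U + 1) ε hε
      refine ⟨k₀, ?_⟩
      rintro k hk ⟨L, lam⟩ ⟨hL, hlam⟩ p hp c hc
      exact h1 k hk p hp c (by rw [Nat.cast_one, one_mul]; exact hc) L hL lam hlam)
  obtain ⟨N₂, h2⟩ := scale_N U
  refine ⟨V, N₁ + N₂ + 4, fun N hN M _ hM1 hM2 ι s y hf c hc L hL lam hlam => ?_⟩
  have hl1 := log_pos4 N (by omega)
  have hl0 : 0 < Real.log N := by linarith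
  have hlk := log_le_dg N (by omega)
  have hsc := h2 N (by omega)
  have hNk : N ≤ 2 ^ dg N := (lt_dg N).le
  obtain ⟨lam', hlam'⟩ : ∃ lam' : Fin L → ℕ → ℝ, lam' = fun l q => if q ≤ ⌊(N : ℝ) ^ (1 - ε)⌋₊ then lam l q else 0 := ⟨_, rfl⟩
  have key := h0 N (by omega) ⟨L, lam'⟩ ⟨hL.trans (pow_le_pow_left₀ hl0.le hlk T), fun l q => by
    simp only [hlam']
    split_ifs
    · exact (hlam l q).trans (pow_le_pow_left₀ hl0.le hlk T)
    · rw [abs_zero]; positivity⟩ M hM1 hM2 ι s y hf c hc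
  refine le_trans (Nat.cast_le.2 (card_le_card fun i hi => ?_)) key
  rw [mem_filter] at hi ⊢
  refine ⟨hi.1, fun hcon => hi.2 ?_⟩
  intro r hr1 hr l x hx
  have h3 : |(r : ℤ) - (c + κ * ((y i).val : ℕ))| ≤ ((dg N : ℕ) : ℤ) ^ W := by
    have h4 : ((|(r : ℤ) - (c + κ * ((y i).val : ℕ))| : ℤ) : ℝ) ≤ ((((dg N : ℕ) : ℤ) ^ W : ℤ) : ℝ) := by
      push_cast
      exact hr.trans (pow_le_pow_left₀ hl0.le hlk W)
    exact_mod_cast h4
  have h4 := hcon (r : ℤ) h3 (by exact_mod_cast hr1) l x (by rw [one_mul]; exact hx.trans hNk)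
  rw [Int.toNat_natCast] at h4
  refine le_trans ?_ (h4.trans hsc)
  rcases floor_le_floor N (dg N) (by omega) hNk ε with h5 | h5 | h5
  · apply le_of_eq
    congr 1
    have e1 : (Icc 1 ⌊(N : ℝ) ^ (1 - ε)⌋₊).filter (fun q => r.Coprime q) ⊆
        (Icc 1 ⌊((2 ^ dg N : ℕ) : ℝ) ^ (1 - ε)⌋₊).filter (fun q => r.Coprime q) :=
      filter_subset_filter _ (Icc_subset_Icc_right h5)
    rw [← sum_subset e1 (fun q hq hq2 => ?_)]
    · apply sum_congr rfl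
      intro q hq
      rw [mem_filter, mem_Icc] at hq
      simp only [hlam', if_pos hq.1.2]
      rfl
    · rw [mem_filter, mem_Icc] at hq hq2
      have : ¬ q ≤ ⌊(N : ℝ) ^ (1 - ε)⌋₊ := fun h => hq2 ⟨⟨hq.1.1, h⟩, hq.2⟩
      simp only [hlam', if_neg this, zero_mul]
  · rw [h5]
    simp
  · omega

/-- weights on the values -/
lemma dis_weight {ι : Type} {q : ℕ} [NeZero q] (s : Finset ι) (y : ι → ZMod q) (M : ℕ) (hM : q ≤ M) (w : ι → ℝ)
    (P : ℕ → Prop) [DecidablePred P] (f : ℕ → ℝ) :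
    ∑ v ∈ (range M).filter P, dis s y v *
      (((∑ i ∈ s.filter (fun i => (y i).val = v), w i) / ((s.filter (fun i => (y i).val = v)).card : ℝ)) * f v) =
      (∑ i ∈ s.filter (fun i => P (y i).val), w i * f (y i).val) / s.card := by
  have hmaps : ∀ i ∈ s.filter (fun i => P (y i).val), (y i).val ∈ (range M).filter P := fun i hi => by
    rw [mem_filter] at hi ⊢
    exact ⟨mem_range.2 (lt_of_lt_of_le (ZMod.val_lt _) hM), hi.2⟩
  rw [← sum_fiberwise_of_maps_to (g := fun i => (y i).val) hmaps, sum_div]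
  refine sum_congr rfl fun v hv => ?_
  rw [mem_filter] at hv
  have e0 : (s.filter (fun i => P (y i).val)).filter (fun i => (y i).val = v) = s.filter (fun i => (y i).val = v) := by
    ext i
    simp only [mem_filter]
    constructor
    · rintro ⟨⟨h1, _⟩, h2⟩
      exact ⟨h1, h2⟩
    · rintro ⟨h1, h2⟩
      exact ⟨⟨h1, by rw [h2]; exact hv.2⟩, h2⟩
  have e1 : ∑ i ∈ s.filter (fun i => (y i).val = v), w i * f (y i).val =
      (∑ i ∈ s.filter (fun i => (y i).val = v), w i) * f v := by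
    rw [sum_mul]
    refine sum_congr rfl fun i hi => ?_
    rw [(mem_filter.1 hi).2]
  rw [e0, e1]
  have e2 : dis s y v = ((s.filter (fun i => (y i).val = v)).card : ℝ) / s.card := by
    unfold dis
    congr!
  rw [e2]
  rcases (s.filter (fun i => (y i).val = v)).eq_empty_or_nonempty with h | h
  · rw [h]; simp
  · have h1 : ((s.filter (fun i => (y i).val = v)).card : ℝ) ≠ 0 := by
      have := h.card_pos
      positivity
    rcases s.eq_empty_or_nonempty with h2 | h2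
    · rw [h2] at h
      simp at h
    · have h3 : (s.card : ℝ) ≠ 0 := by
        have := h2.card_pos
        positivity
      field_simp

open Classical in
/-- averages over the members of a family, with absolute values over the moduli -/
theorem mq_avg (κ : ℤ) (hκ : κ ≠ 0) (a T U : ℕ) (ε : ℝ) (hε : 0 < ε) :
    ∃ V N₀ : ℕ, ∀ N : ℕ, N₀ ≤ N → ∀ M : ℕ, ∀ [NeZero M], M ≤ N → (N : ℝ) ≤ M * Real.log N ^ a →
      ∀ (ι : Type) (s : Finset ι) (y : ι → ZMod M), Flat M (1 / Real.log M ^ V) s y → ∀ c : ℤ, |c| ≤ N →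
      ∀ w : ι → ℝ, (∀ i, |w i| ≤ Real.log N ^ T) → ∀ x : ℕ → ℕ, (∀ q, x q ≤ N) →
      ∑ q ∈ Icc 1 ⌊(N : ℝ) ^ (1 - ε)⌋₊, |∑ i ∈ s.filter (fun i => 0 < c + κ * ((y i).val : ℤ) ∧
        (c + κ * ((y i).val : ℤ)).toNat.Coprime q), w i * Err (x q) q (c + κ * ((y i).val : ℤ)).toNat| ≤
        s.card * (N / Real.log N ^ U) := by
  obtain ⟨V, k₀, h0⟩ := fin_form (a + 1) κ hκ (fun k p => ∃ c : ℤ, |c| ≤ (2 : ℤ) ^ k ∧ ∃ w : ℕ → ℝ, (∀ v, |w v| ≤ (k : ℝ) ^ T) ∧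
      ∃ x : ℕ → ℕ, (∀ q, x q ≤ 2 ^ k) ∧ ((2 ^ k : ℕ) : ℝ) / (k : ℝ) ^ (U + 1) <
        ∑ q ∈ Icc 1 ⌊((2 ^ k : ℕ) : ℝ) ^ (1 - ε)⌋₊,
      |∑ v ∈ (range (2 ^ k)).filter (fun v => 0 < c + κ * (v : ℕ) ∧ (c + κ * (v : ℕ)).toNat.Coprime q),
        p v * (w v * Pool.Agent.N625.DY.Err (x q) q (c + κ * (v : ℕ)).toNat)|) (fun C hC => by
      obtain ⟨k₀, h1⟩ := Pool.Agent.N625.DY.cls_avg hC.toCls 1 T (U + 1) ε hε
      refine ⟨k₀, fun k hk p hp => ?_⟩
      rintro ⟨c, hc, w, hw, x, hx, hlt⟩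
      exact absurd (h1 k hk p hp c (by rw [Nat.cast_one, one_mul]; exact hc) w hw x (fun q => by rw [one_mul]; exact hx q))
        (not_le.2 hlt))
  obtain ⟨N₁, h1⟩ := scaleN a V k₀
  obtain ⟨N₂, h2⟩ := scale_N U
  refine ⟨V + 1, N₁ + N₂ + 4, fun N hN M _ hM1 hM2 ι s y hf c hc w hw x hx => ?_⟩
  rcases s.eq_empty_or_nonempty with hs | hs
  · subst hs
    simp
  have hs0 : (0 : ℝ) < s.card := by exact_mod_cast hs.card_pos
  have hl1 := log_pos4 N (by omega)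
  have hl0 : 0 < Real.log N := by linarith
  have hlk := log_le_dg N (by omega)
  have hsc := h2 N (by omega)
  have hNk : N ≤ 2 ^ dg N := (lt_dg N).le
  obtain ⟨g1, g2, g3, g4, g5⟩ := h1 N M (by omega) hM1 hM2
  have hMC := dis_MC (a + 1) V (dg N) M s hs y g3 g4 (hf.mono g5)
  have h3 := h0 (dg N) g2 _ hMC
  push Not at h3
  have hc2 : |c| ≤ (2 : ℤ) ^ dg N := by
    refine hc.trans ?_
    exact_mod_cast hNk
  have h4 := h3 c hc2 (fun v => (∑ i ∈ s.filter (fun i => (y i).val = v), w i) / ((s.filter (fun i => (y i).val = v)).card : ℝ))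
    (fun v => by
      rw [abs_div, Nat.abs_cast]
      apply div_le_of_le_mul₀ (Nat.cast_nonneg _) (by positivity)
      refine (abs_sum_le_sum_abs _ _).trans ?_
      refine (sum_le_sum fun i _ => (hw i).trans (pow_le_pow_left₀ hl0.le hlk T)).trans ?_
      rw [sum_const, nsmul_eq_mul, mul_comm]) x (fun q => (hx q).trans hNk)
  have e2 : ∀ q, ∑ v ∈ (range (2 ^ dg N)).filter (fun v : ℕ => 0 < c + κ * (v : ℤ) ∧ (c + κ * (v : ℤ)).toNat.Coprime q),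
        dis s y v * (((∑ i ∈ s.filter (fun i => (y i).val = v), w i) / ((s.filter (fun i => (y i).val = v)).card : ℝ)) *
        Pool.Agent.N625.DY.Err (x q) q (c + κ * (v : ℤ)).toNat) =
      (∑ i ∈ s.filter (fun i => 0 < c + κ * ((y i).val : ℤ) ∧
        (c + κ * ((y i).val : ℤ)).toNat.Coprime q), w i * Err (x q) q (c + κ * ((y i).val : ℤ)).toNat) / s.card :=
    fun q => by
      have := dis_weight s y (2 ^ dg N) g3 w (fun v : ℕ => 0 < c + κ * (v : ℤ) ∧ (c + κ * (v : ℤ)).toNat.Coprime q)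
        (fun v => Pool.Agent.N625.DY.Err (x q) q (c + κ * (v : ℤ)).toNat)
      refine Eq.trans ?_ (this.trans ?_)
      · apply sum_congr rfl
        intro v _
        congr!
      · congr 1
  have h5 : ∑ q ∈ Icc 1 ⌊((2 ^ dg N : ℕ) : ℝ) ^ (1 - ε)⌋₊, |(∑ i ∈ s.filter (fun i => 0 < c + κ * ((y i).val : ℤ) ∧
        (c + κ * ((y i).val : ℤ)).toNat.Coprime q), w i * Err (x q) q (c + κ * ((y i).val : ℤ)).toNat) / s.card| ≤
        N / Real.log N ^ U := by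
    refine le_trans (le_of_eq ?_) (h4.trans hsc)
    exact sum_congr rfl fun q _ => by rw [← e2 q]
  simp_rw [abs_div, Nat.abs_cast] at h5
  rw [← sum_div, div_le_iff₀ hs0, mul_comm] at h5
  refine le_trans ?_ h5
  rcases floor_le_floor N (dg N) (by omega) hNk ε with h6 | h6 | h6
  · exact sum_le_sum_of_subset_of_nonneg (Icc_subset_Icc_right h6) fun _ _ _ => abs_nonneg _
  · rw [h6]
    simp only [Order.lt_one_iff, Icc_eq_empty_of_lt, sum_empty]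
    exact sum_nonneg fun _ _ => abs_nonneg _
  · omega

end Pool.Agent.Run7.h794.RF
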